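import Pool.Agent.P0.Answer41

namespace Pool.Agent.Results.MP_2b93ca_co.FullAnswer

universe u

/-- For all `k ≥ 2` and `r ≥ 3` every finite graph with at least `k r` vertices and minimum degree
at least `2 k r / 3` contains `k` pairwise vertex-disjoint cycles, each of length at least `r`. -/
theorem result (k r : ℕ) (hk : 2 ≤ k) (hr : 3 ≤ r) (V : Type u) [Fintype V]
    (G : SimpleGraph V) [DecidableRel G.Adj] (hn : k * r ≤ Fintype.card V)
    (hd : (2 / 3 : ℝ) * k * r ≤ (G.minDegree : ℝ)) :
      ∃ (a : Fin k → V) (c : (i : Fin k) → G.Walk (a i) (a i)),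
        (∀ i, (c i).IsCycle ∧ r ≤ (c i).length) ∧
        ∀ i j, i ≠ j → ∀ x, x ∈ (c i).support → x ∉ (c j).support :=
  Pool.Agent.P0.answer41 k r hk hr V G hn hd

end Pool.Agent.Results.MP_2b93ca_co.FullAnswer
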