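import Pool.Agent.LCK.Main

namespace Pool.Agent.Results.MP_2b93ca_co.LargeK

universe u

/-- For every `ε > 0` there is `K` such that for all `k ≥ K` and `r ≥ 4` every finite graph with at
least `k r` vertices and minimum degree at least `(1 + ε) k ⌈r / 2⌉` or at least `2 k r / 3`
contains `k` pairwise vertex-disjoint cycles, each of length at least `r`. -/
theorem result (ε : ℝ) (hε : 0 < ε) :
    ∃ K : ℕ, ∀ k r : ℕ, K ≤ k → 4 ≤ r →
      ∀ (V : Type u) [Fintype V] (G : SimpleGraph V) [DecidableRel G.Adj],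
        k * r ≤ Fintype.card V →
        min ((1 + ε) * (k : ℝ) * (((r + 1) / 2 : ℕ) : ℝ)) ((2 / 3 : ℝ) * k * r)
          ≤ (G.minDegree : ℝ) →
          ∃ (a : Fin k → V) (c : (i : Fin k) → G.Walk (a i) (a i)),
            (∀ i, (c i).IsCycle ∧ r ≤ (c i).length) ∧
            ∀ i j, i ≠ j → ∀ x, x ∈ (c i).support → x ∉ (c j).support :=
  Pool.Agent.LCK.main_min ε hε

end Pool.Agent.Results.MP_2b93ca_co.LargeK
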